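import Pool.Agent.Helper91.SD.Num

/-! # SDET: the choice of the parameters, second version -/

set_option autoImplicit false

namespace Pool.SDN

open Real

theorem exp_three : exp 1 ^ 3 ≤ 20.1 := by
  have h1 : exp 1 ≤ 2.7182818286 := exp_one_lt_d9.le
  have h2 : 0 < exp 1 := exp_pos 1
  calc exp 1 ^ 3 ≤ 2.7182818286 ^ 3 := pow_le_pow_left₀ h2.le h1 3
    _ ≤ 20.1 := by norm_num

/-- The sum over the index sets, for any upper bound `y` of `m x`. -/
theorem sum_choose_le' {m k : ℕ} (hk : 1 ≤ k) (hkm : k ≤ m) {x y : ℝ} (hx : 0 ≤ x)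
    (hxy : m * x ≤ y) (hy : (k : ℝ) ≤ y) :
    ∑ j ∈ Finset.range (k + 1), (Nat.choose (m - k - 1 + j) j : ℝ) * x ^ j ≤
      (exp 1 * y / k) ^ k := by
  have hk0 : (0 : ℝ) < k := by exact_mod_cast hk
  have hy0 : 0 < y := lt_of_lt_of_le hk0 hy
  have h1 : 1 ≤ y / k := by rwa [le_div_iff₀ hk0, one_mul]
  have hmx : 0 ≤ m * x := by positivity
  have h2 : ∀ j ∈ Finset.range (k + 1), (Nat.choose (m - k - 1 + j) j : ℝ) * x ^ j ≤
      (y / k) ^ k * ((k : ℝ) ^ j / j.factorial) := by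
    intro j hj
    rw [Finset.mem_range] at hj
    have h3 : (Nat.choose (m - k - 1 + j) j : ℝ) ≤ (m : ℝ) ^ j / j.factorial := by
      refine (Nat.choose_le_pow_div j (m - k - 1 + j)).trans ?_
      have h4 : ((m - k - 1 + j : ℕ) : ℝ) ≤ m := by
        have : m - k - 1 + j ≤ m := by omega
        exact_mod_cast this
      gcongr
    calc (Nat.choose (m - k - 1 + j) j : ℝ) * x ^ j ≤ (m : ℝ) ^ j / j.factorial * x ^ j := by
          gcongr
      _ = (m * x) ^ j / j.factorial := by rw [mul_pow]; ring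
      _ ≤ y ^ j / j.factorial := by gcongr
      _ = (y / k) ^ j * ((k : ℝ) ^ j / j.factorial) := by
          rw [div_pow]
          field_simp
      _ ≤ (y / k) ^ k * ((k : ℝ) ^ j / j.factorial) := by
          have h5 : (y / k) ^ j ≤ (y / k) ^ k := pow_le_pow_right₀ h1 (by omega)
          gcongr
  calc ∑ j ∈ Finset.range (k + 1), (Nat.choose (m - k - 1 + j) j : ℝ) * x ^ j
      ≤ ∑ j ∈ Finset.range (k + 1), (y / k) ^ k * ((k : ℝ) ^ j / j.factorial) :=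
        Finset.sum_le_sum h2
    _ = (y / k) ^ k * ∑ j ∈ Finset.range (k + 1), (k : ℝ) ^ j / j.factorial := by
        rw [Finset.mul_sum]
    _ ≤ (y / k) ^ k * exp k := by
        have h6 := sum_le_exp_of_nonneg hk0.le (k + 1)
        gcongr
    _ = (exp 1 * y / k) ^ k := by
        have h7 : exp (k : ℝ) = exp 1 ^ k := by
          rw [← exp_nat_mul, mul_one]
        rw [h7, ← mul_pow]
        congr 1
        ring

/-- The powers of `q = exp (- (log t) / N)`. -/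
theorem q_props2 {t N δ : ℕ} (ht : 3 ≤ t) (hN : t * log t ≤ N)
    {q : ℝ} (hq : q = exp (-(log t / N))) :
    0 < q ∧ q < 1 ∧ t ≤ N ∧ q ^ N = 1 / t ∧ q ^ (N - (t - 1)) ≤ exp 1 / t ∧
      1 - q ^ δ ≤ δ * (log t / N) ∧ (∀ k : ℕ, (q ^ k)⁻¹ = exp (k * (log t / N))) := by
  have ht' : (3 : ℝ) ≤ t := by exact_mod_cast ht
  have h0 : (0 : ℝ) < t := by linarith
  have hlog : 1 ≤ log t := by
    rw [le_log_iff_exp_le h0]
    have := exp_one_lt_d9
    linarith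
  have hN0 : (0 : ℝ) < N := by nlinarith
  have hNt : t ≤ N := by
    have : (t : ℝ) ≤ N := by nlinarith
    exact_mod_cast this
  have hpow : ∀ k : ℕ, q ^ k = exp (-(k * (log t / N))) := by
    intro k
    rw [hq, ← exp_nat_mul]
    congr 1
    ring
  have hpos : 0 < log t / N := div_pos (by linarith) hN0
  have hinv : ∀ k : ℕ, (q ^ k)⁻¹ = exp (k * (log t / N)) := by
    intro k
    rw [hpow, exp_neg, inv_inv]
  refine ⟨by rw [hq]; exact exp_pos _, ?_, hNt, ?_, ?_, ?_, hinv⟩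
  · rw [hq, exp_lt_one_iff]
    linarith
  · rw [hpow, mul_div_cancel₀ _ hN0.ne', exp_neg, exp_log h0, one_div]
  · rw [hpow]
    have h1 : ((N - (t - 1) : ℕ) : ℝ) = N - (t - 1) := by
      rw [Nat.cast_sub (by omega), Nat.cast_sub (by omega)]
      simp
    have h2 : -(((N - (t - 1) : ℕ) : ℝ) * (log t / N)) ≤ 1 - log t := by
      rw [h1]
      have h3 : (t - 1 : ℝ) * (log t / N) ≤ 1 := by
        rw [mul_div_assoc', div_le_one hN0]
        nlinarith
      have h4 : (N : ℝ) * (log t / N) = log t := by field_simp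
      nlinarith
    calc exp (-(((N - (t - 1) : ℕ) : ℝ) * (log t / N))) ≤ exp (1 - log t) := exp_le_exp.2 h2
      _ = exp 1 / t := by rw [exp_sub, exp_log h0]
  · rw [hpow]
    have := add_one_le_exp (-((δ : ℝ) * (log t / N)))
    linarith

theorem exp_eleven : (55000 : ℝ) ≤ exp 11 := by
  have h1 : (2.7 : ℝ) ≤ exp 1 := by
    have := exp_one_gt_d9
    linarith
  have h2 : exp 11 = exp 1 ^ 11 := by
    rw [← exp_nat_mul]
    norm_num
  rw [h2]
  calc (55000 : ℝ) ≤ 2.7 ^ 11 := by norm_num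
    _ ≤ exp 1 ^ 11 := pow_le_pow_left₀ (by norm_num) h1 11

/-- The bound for the number of blocks. -/
theorem base_bound {μ Λ ℓ n D N t x : ℝ} (hμ : 0 < μ) (hΛ : 0 < Λ) (hℓ : ℓ ≤ 11 * Λ) (hℓ0 : 0 < ℓ)
    (hD : 0 < D) (hN : 0 < N) (ht : exp 11 / 2 * (μ * Λ) ≤ t) (hn : 0 < n) (hDN : n ≤ 8 * D * N)
    (hx : x = exp 1 * (2 * (μ * n * ℓ / N)) / (2 * D)) :
    exp 1 * (exp 1 / t) * x ≤ 1 / 15 ∧ x ≤ 240 * (μ * Λ) := by
  have h9 := exp_eleven
  have ht0 : 0 < t := lt_of_lt_of_le (by positivity) ht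
  have h8 : μ * n * ℓ ≤ 88 * (μ * Λ) * (D * N) := by
    have h10 : μ * n ≤ μ * (8 * D * N) := mul_le_mul_of_nonneg_left hDN hμ.le
    calc μ * n * ℓ ≤ μ * (8 * D * N) * (11 * Λ) := mul_le_mul h10 hℓ hℓ0.le (by positivity)
      _ = 88 * (μ * Λ) * (D * N) := by ring
  have hDN0 : 0 < D * N := by positivity
  have hx' : x = exp 1 * (μ * n * ℓ) / (D * N) := by
    rw [hx]
    field_simp
  constructor
  · have h7 : exp 1 * (exp 1 / t) * x = exp 1 ^ 3 * (μ * n * ℓ) / (t * (D * N)) := by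
      rw [hx']
      field_simp
    rw [h7, div_le_iff₀ (by positivity)]
    have h11 := exp_three
    have h12 : 88 * 20.1 * (μ * Λ) ≤ 1 / 15 * t := by
      have h13 : 88 * 20.1 * (μ * Λ) ≤ 1 / 15 * (exp 11 / 2 * (μ * Λ)) := by
        have h14 : 0 < μ * Λ := by positivity
        nlinarith
      linarith
    calc exp 1 ^ 3 * (μ * n * ℓ) ≤ 20.1 * (88 * (μ * Λ) * (D * N)) :=
          mul_le_mul h11 h8 (by positivity) (by norm_num)
      _ = (88 * 20.1 * (μ * Λ)) * (D * N) := by ring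
      _ ≤ (1 / 15 * t) * (D * N) := mul_le_mul_of_nonneg_right h12 hDN0.le
      _ = 1 / 15 * (t * (D * N)) := by ring
  · rw [hx', div_le_iff₀ hDN0]
    have h1 : exp 1 ≤ 2.7182818286 := exp_one_lt_d9.le
    calc exp 1 * (μ * n * ℓ) ≤ 2.7182818286 * (88 * (μ * Λ) * (D * N)) :=
          mul_le_mul h1 h8 (by positivity) (by norm_num)
      _ ≤ 240 * (μ * Λ) * (D * N) := by
        have : 0 < μ * Λ * (D * N) := by positivity
        nlinarith

/-- The choice of the parameters. -/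
theorem params {n m δ ν η : ℕ} (hn : 1 ≤ n) (hδ : 1 ≤ δ) (hnm : n ≤ 2 * (m * δ)) {μ Λ W : ℝ}
    (hμ1 : 1 ≤ μ) (hμm : m * δ ≤ μ * n) (hΛ : Λ = 1 + log μ) (hW : W = μ * Λ ^ 2 + δ * Λ)
    (hν : 88 * (ν * Λ) ≤ n) (hη : 1056 * exp 11 * (η * (Λ * W)) ≤ n) (hnW : 88 * exp 11 * W ≤ n) :
    ∃ (D N a : ℕ) (q y : ℝ), 1 ≤ D ∧ a < N ∧ D * (2 * (N + a) + 1) ≤ n ∧ D + η < m ∧ 0 < q ∧
      q < 1 ∧ (m : ℝ) * (1 - q ^ δ) ≤ y / 2 ∧ (2 * (D + η) : ℕ) ≤ y ∧
      n / (88 * exp 11 * W) ≤ 2 * D ∧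
      ∀ T : ℝ, 0 ≤ T → q ^ (D * (δ - 1) + ν) * (1 - (1 - q ^ N) ^ (a + 1)) ^ (2 * D) ≤
        q ^ ((N - a) * (2 * D)) * (T * (exp 1 * y / (2 * (D + η) : ℕ)) ^ (2 * (D + η))) →
        3 ^ (2 * D) ≤ T := by
  have hn' : (1 : ℝ) ≤ n := by exact_mod_cast hn
  have hn0 : (0 : ℝ) < n := by linarith
  have hδ' : (1 : ℝ) ≤ δ := by exact_mod_cast hδ
  have hnm' : (n : ℝ) ≤ 2 * (m * δ) := by exact_mod_cast hnm
  have hμ0 : 0 < μ := by linarith
  have hΛ1 : 1 ≤ Λ := by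
    have := log_nonneg hμ1
    linarith
  have hΛ0 : 0 < Λ := by linarith
  have h9 := exp_eleven
  have h90 := exp_pos 11
  have hμΛ : 1 ≤ μ * Λ := by
    calc (1 : ℝ) = 1 * 1 := by norm_num
      _ ≤ μ * Λ := mul_le_mul hμ1 hΛ1 zero_le_one hμ0.le
  set X : ℝ := exp 11 / 2 * (μ * Λ) with hX
  have hX1 : 27500 ≤ X := by
    calc (27500 : ℝ) = 55000 / 2 * 1 := by norm_num
      _ ≤ X := mul_le_mul (by linarith) hμΛ zero_le_one (by positivity)
  set t : ℕ := ⌈X⌉₊ with ht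
  have htX : X ≤ t := Nat.le_ceil X
  have htX' : (t : ℝ) ≤ exp 11 * (μ * Λ) := by
    have h1 : (t : ℝ) < X + 1 := Nat.ceil_lt_add_one (by linarith)
    have h2 : exp 11 * (μ * Λ) = 2 * X := by rw [hX]; ring
    rw [h2]
    linarith
  have ht3' : (3 : ℝ) ≤ t := by linarith
  have ht3 : 3 ≤ t := by exact_mod_cast ht3'
  have ht0 : (0 : ℝ) < t := by linarith
  set ℓ : ℝ := log t with hℓ
  have hℓ11 : ℓ ≤ 11 * Λ := by
    have h1 : log t ≤ log (exp 11 * (μ * Λ)) := log_le_log ht0 htX'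
    rw [log_mul (exp_pos 11).ne' (mul_pos hμ0 hΛ0).ne', log_exp, log_mul hμ0.ne' hΛ0.ne'] at h1
    have h2 : log Λ ≤ Λ - 1 := log_le_sub_one_of_pos hΛ0
    have h3 : log μ = Λ - 1 := by rw [hΛ]; ring
    linarith
  have hℓ4 : 4 ≤ ℓ := by
    rw [hℓ, le_log_iff_exp_le ht0]
    have h1 : exp 4 = exp 1 ^ 4 := by
      rw [← exp_nat_mul]
      norm_num
    have h2 : exp 1 ≤ 3 := by
      have := exp_one_lt_d9
      linarith
    have h3 : exp 1 ^ 4 ≤ 3 ^ 4 := pow_le_pow_left₀ (exp_pos 1).le h2 4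
    linarith
  have hℓ0 : 0 < ℓ := by linarith
  set M : ℝ := max (t : ℝ) δ with hM
  have hM0 : 0 < M := lt_of_lt_of_le ht0 (le_max_left _ _)
  set N : ℕ := ⌈M * ℓ⌉₊ with hN
  have hN1 : M * ℓ ≤ N := Nat.le_ceil _
  have hN2 : (N : ℝ) ≤ 2 * (M * ℓ) := by
    have h1 : (N : ℝ) < M * ℓ + 1 := Nat.ceil_lt_add_one (by positivity)
    have h2 : 1 ≤ M * ℓ := by
      have h3 : 1 ≤ M := le_trans (by linarith) (le_max_left (t : ℝ) δ)
      calc (1 : ℝ) = 1 * 1 := by norm_num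
        _ ≤ M * ℓ := mul_le_mul h3 (by linarith) zero_le_one hM0.le
    linarith
  have hNt : t * ℓ ≤ N := le_trans (mul_le_mul_of_nonneg_right (le_max_left _ _) hℓ0.le) hN1
  have hNδ : δ * ℓ ≤ N := le_trans (mul_le_mul_of_nonneg_right (le_max_right _ _) hℓ0.le) hN1
  have hN0 : (0 : ℝ) < N := lt_of_lt_of_le (by positivity) hN1
  set q : ℝ := exp (-(ℓ / N)) with hq
  obtain ⟨hq0, hq1, htN, hqN, hqNa, hqδ, hqinv⟩ := q_props2 (δ := δ) ht3 hNt hq
  have hW0 : 0 < W := by rw [hW]; positivity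
  have hN3 : (N : ℝ) ≤ 22 * exp 11 * W := by
    have h1 : M ≤ exp 11 * (μ * Λ) + δ := max_le (by linarith) (by
      have : 0 ≤ exp 11 * (μ * Λ) := by positivity
      linarith)
    have h2 : M * ℓ ≤ (exp 11 * (μ * Λ) + δ) * (11 * Λ) :=
      mul_le_mul h1 hℓ11 hℓ0.le (by positivity)
    have h3 : δ * Λ ≤ exp 11 * (δ * Λ) := le_mul_of_one_le_left (by positivity) (by linarith)
    calc (N : ℝ) ≤ 2 * (M * ℓ) := hN2
      _ ≤ 2 * ((exp 11 * (μ * Λ) + δ) * (11 * Λ)) := by linarith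
      _ = 22 * (exp 11 * (μ * Λ ^ 2) + δ * Λ) := by ring
      _ ≤ 22 * (exp 11 * (μ * Λ ^ 2) + exp 11 * (δ * Λ)) := by linarith
      _ = 22 * exp 11 * W := by rw [hW]; ring
  set s : ℕ := 2 * (N + (t - 1)) + 1 with hs
  have hs1 : (s : ℝ) ≤ 4 * N := by
    have h1 : s ≤ 4 * N := by omega
    exact_mod_cast h1
  have hs2 : (s : ℝ) ≤ 88 * exp 11 * W := by linarith
  have hs0' : 0 < s := by omega
  have hs0 : (0 : ℝ) < s := by exact_mod_cast hs0'
  have hsn : s ≤ n := by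
    have : (s : ℝ) ≤ n := hs2.trans hnW
    exact_mod_cast this
  set D : ℕ := n / s with hD
  have hD0 : 0 < D := Nat.div_pos hsn hs0'
  have hDn : D * s ≤ n := Nat.div_mul_le_self n s
  have hDn' : n < (D + 1) * s := by
    have h2 := Nat.lt_div_mul_add (a := n) (b := s) hs0'
    rw [← hD] at h2
    linarith [add_mul D 1 s]
  have hD1 : (1 : ℝ) ≤ D := by exact_mod_cast hD0
  have hD1' : (0 : ℝ) < D := by linarith
  have hDr : (n : ℝ) ≤ 2 * D * s := by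
    have h1 : (n : ℝ) < (D + 1) * s := by exact_mod_cast hDn'
    have h2 : (s : ℝ) ≤ D * s := le_mul_of_one_le_left hs0.le hD1
    linarith
  have hDN : (n : ℝ) ≤ 8 * D * N := by
    have h1 : 2 * (D : ℝ) * s ≤ 2 * D * (4 * N) := mul_le_mul_of_nonneg_left hs1 (by positivity)
    linarith
  have hD2 : 2 * (D : ℝ) * N ≤ n := by
    have h1 : D * (2 * N) ≤ n := le_trans (Nat.mul_le_mul_left D (by omega)) hDn
    have h2 : (D : ℝ) * (2 * N) ≤ n := by exact_mod_cast h1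
    linarith
  have hη6 : 6 * (η * Λ) ≤ D := by
    have h1 : 1056 * exp 11 * (η * (Λ * W)) ≤ 8 * D * (22 * exp 11 * W) :=
      (hη.trans hDN).trans (mul_le_mul_of_nonneg_left hN3 (by positivity))
    have h2 : (6 * (η * Λ)) * (176 * exp 11 * W) ≤ D * (176 * exp 11 * W) := by
      calc (6 * (η * Λ)) * (176 * exp 11 * W) = 1056 * exp 11 * (η * (Λ * W)) := by ring
        _ ≤ 8 * D * (22 * exp 11 * W) := h1
        _ = D * (176 * exp 11 * W) := by ring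
    exact le_of_mul_le_mul_right h2 (by positivity)
  have hη1 : (η : ℝ) ≤ D := by
    have h1 : (η : ℝ) ≤ η * Λ := le_mul_of_one_le_right (by positivity) hΛ1
    have h2 : 0 ≤ (η : ℝ) * Λ := by positivity
    linarith
  have hη' : η ≤ D := by exact_mod_cast hη1
  set y : ℝ := 2 * (μ * n * ℓ / N) with hy
  have hnℓ : (n : ℝ) * ℓ ≤ μ * n * ℓ := by
    have : (n : ℝ) ≤ μ * n := le_mul_of_one_le_left hn0.le hμ1
    exact mul_le_mul_of_nonneg_right this hℓ0.le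
  have hyD : ((2 * (D + η) : ℕ) : ℝ) ≤ y := by
    have h1 : ((2 * (D + η) : ℕ) : ℝ) ≤ 4 * D := by
      have : 2 * (D + η) ≤ 4 * D := by omega
      exact_mod_cast this
    refine h1.trans ?_
    rw [hy, mul_div_assoc', le_div_iff₀ hN0]
    have h2 : (n : ℝ) * 4 ≤ n * ℓ := mul_le_mul_of_nonneg_left hℓ4 hn0.le
    linarith
  have hmy : (m : ℝ) * (1 - q ^ δ) ≤ y / 2 := by
    have h1 : (m : ℝ) * (1 - q ^ δ) ≤ m * (δ * (ℓ / N)) :=
      mul_le_mul_of_nonneg_left hqδ (by positivity)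
    have h2 : (m : ℝ) * (δ * (ℓ / N)) = (m * δ) * (ℓ / N) := by ring
    have h3 : ((m : ℝ) * δ) * (ℓ / N) ≤ (μ * n) * (ℓ / N) :=
      mul_le_mul_of_nonneg_right hμm (by positivity)
    have h4 : y / 2 = (μ * n) * (ℓ / N) := by rw [hy]; ring
    rw [h4]
    linarith
  have hDm : D + η < m := by
    have h1 : (2 * (D : ℝ)) * (δ * ℓ) ≤ 2 * (m * δ) :=
      calc (2 * (D : ℝ)) * (δ * ℓ) ≤ 2 * D * N := mul_le_mul_of_nonneg_left hNδ (by positivity)
        _ ≤ n := hD2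
        _ ≤ 2 * (m * δ) := hnm'
    have h2 : (4 * (D : ℝ)) * δ ≤ m * δ := by
      have h3 : (2 * (D : ℝ)) * (δ * 4) ≤ (2 * D) * (δ * ℓ) :=
        mul_le_mul_of_nonneg_left (mul_le_mul_of_nonneg_left hℓ4 (by positivity)) (by positivity)
      linarith
    have h4 : (4 * (D : ℝ)) ≤ m := le_of_mul_le_mul_right h2 (by linarith)
    have h5 : 4 * D ≤ m := by exact_mod_cast h4
    omega
  refine ⟨D, N, t - 1, q, y, hD0, by omega, hDn, hDm, hq0, hq1, hmy, hyD, ?_, ?_⟩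
  · calc (n : ℝ) / (88 * exp 11 * W) ≤ n / s := div_le_div_of_nonneg_left hn0.le hs0 hs2
      _ ≤ 2 * D := by rw [div_le_iff₀ hs0]; exact hDr
  intro T hT0 h1
  have hta : t - 1 + 1 = t := by omega
  rw [hta, hqN] at h1
  have h35 : (3 / 5 : ℝ) ≤ 1 - (1 - 1 / t) ^ t := by
    have h2 : (1 - 1 / (t : ℝ)) ≤ exp (-(1 / t)) := by
      have := add_one_le_exp (-(1 / (t : ℝ)))
      linarith
    have h3 : 0 ≤ 1 - 1 / (t : ℝ) := by
      rw [sub_nonneg, div_le_one ht0]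
      linarith
    have h4 : (1 - 1 / (t : ℝ)) ^ t ≤ exp (-1) := by
      calc (1 - 1 / (t : ℝ)) ^ t ≤ (exp (-(1 / (t : ℝ)))) ^ t := pow_le_pow_left₀ h3 h2 _
        _ = exp (-1) := by
          rw [← exp_nat_mul]
          congr 1
          field_simp
    have h5 : exp (-1 : ℝ) ≤ 2 / 5 := by
      have := exp_one_gt_d9
      rw [exp_neg, inv_le_comm₀ (exp_pos _) (by norm_num)]
      linarith
    linarith
  have h2 : (3 / 5 : ℝ) ^ (2 * D) ≤ (1 - (1 - 1 / (t : ℝ)) ^ t) ^ (2 * D) :=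
    pow_le_pow_left₀ (by norm_num) h35 _
  have h3 : q ^ ((N - (t - 1)) * (2 * D)) ≤ (exp 1 / t) ^ (2 * D) := by
    rw [pow_mul]
    exact pow_le_pow_left₀ (pow_pos hq0 _).le hqNa _
  have h4 : (q ^ (D * (δ - 1) + ν))⁻¹ ≤ (exp 1) ^ (2 * D) := by
    rw [hqinv, ← exp_nat_mul, mul_one, exp_le_exp]
    have h5 : ((D * (δ - 1) : ℕ) : ℝ) * (ℓ / N) ≤ D := by
      rw [mul_div_assoc', div_le_iff₀ hN0]
      have h6 : ((D * (δ - 1) : ℕ) : ℝ) ≤ D * δ := by
        have : D * (δ - 1) ≤ D * δ := Nat.mul_le_mul_left D (Nat.sub_le δ 1)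
        exact_mod_cast this
      calc ((D * (δ - 1) : ℕ) : ℝ) * ℓ ≤ D * δ * ℓ := mul_le_mul_of_nonneg_right h6 hℓ0.le
        _ = D * (δ * ℓ) := by ring
        _ ≤ D * N := mul_le_mul_of_nonneg_left hNδ (by positivity)
    have h6 : (ν : ℝ) * (ℓ / N) ≤ D := by
      rw [mul_div_assoc', div_le_iff₀ hN0]
      have h7 : (ν : ℝ) * ℓ ≤ ν * (11 * Λ) := mul_le_mul_of_nonneg_left hℓ11 (by positivity)
      linarith
    calc ((D * (δ - 1) + ν : ℕ) : ℝ) * (ℓ / N)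
        = ((D * (δ - 1) : ℕ) : ℝ) * (ℓ / N) + ν * (ℓ / N) := by push_cast; ring
      _ ≤ D + D := add_le_add h5 h6
      _ = ((2 * D : ℕ) : ℝ) := by push_cast; ring
  set x : ℝ := exp 1 * y / (2 * D) with hx
  have hy0 : 0 < y := lt_of_lt_of_le (by positivity) hyD
  have hx0 : 0 < x := by positivity
  obtain ⟨hb1, hb2⟩ := base_bound hμ0 hΛ0 hℓ11 hℓ0 hD1' hN0 htX hn0 hDN (x := x) (by rw [hx, hy])
  have hx1 : 1 ≤ x := by
    have h5 : (2 * D : ℝ) ≤ y := by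
      have : ((2 * (D + η) : ℕ) : ℝ) = 2 * D + 2 * η := by push_cast; ring
      rw [this] at hyD
      have : (0 : ℝ) ≤ 2 * η := by positivity
      linarith
    rw [hx, le_div_iff₀ (by positivity), one_mul]
    have h6 : 1 ≤ exp 1 := one_le_exp zero_le_one
    calc (2 * D : ℝ) ≤ y := h5
      _ ≤ exp 1 * y := le_mul_of_one_le_left hy0.le h6
  -- the loss from η
  have hloss : (exp 1 * y / (2 * (D + η) : ℕ)) ^ (2 * (D + η)) ≤ x ^ (2 * D) * 3 ^ (2 * D) := by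
    have h5 : exp 1 * y / ((2 * (D + η) : ℕ) : ℝ) ≤ x := by
      rw [hx]
      refine div_le_div_of_nonneg_left (by positivity) (by positivity) ?_
      have : 2 * D ≤ 2 * (D + η) := by omega
      exact_mod_cast this
    have h6 : x ^ (2 * η) ≤ 3 ^ (2 * D) := by
      have h7 : log x ≤ 6 * Λ := by
        have h8 : log x ≤ log (240 * (μ * Λ)) := log_le_log hx0 hb2
        rw [log_mul (by norm_num) (mul_pos hμ0 hΛ0).ne', log_mul hμ0.ne' hΛ0.ne'] at h8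
        have h10 : log Λ ≤ Λ - 1 := log_le_sub_one_of_pos hΛ0
        have h11 : log μ = Λ - 1 := by rw [hΛ]; ring
        have h12 : log 240 ≤ 6 := by
          rw [log_le_iff_le_exp (by norm_num)]
          have h13 : exp 6 = exp 1 ^ 6 := by
            rw [← exp_nat_mul]
            norm_num
          have h14 : (2.7 : ℝ) ≤ exp 1 := by
            have := exp_one_gt_d9
            linarith
          rw [h13]
          calc (240 : ℝ) ≤ 2.7 ^ 6 := by norm_num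
            _ ≤ exp 1 ^ 6 := pow_le_pow_left₀ (by norm_num) h14 6
        linarith
      have h8 : x ^ (2 * η) = exp (((2 * η : ℕ) : ℝ) * log x) := by
        rw [exp_nat_mul, exp_log hx0]
      have h10 : (3 : ℝ) ^ (2 * D) = exp (((2 * D : ℕ) : ℝ) * log 3) := by
        rw [exp_nat_mul, exp_log (by norm_num)]
      rw [h8, h10, exp_le_exp]
      have h11 : 1 ≤ log 3 := by
        rw [le_log_iff_exp_le (by norm_num)]
        have := exp_one_lt_d9
        linarith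
      have h12 : ((2 * η : ℕ) : ℝ) * log x ≤ 2 * η * (6 * Λ) := by
        push_cast
        exact mul_le_mul_of_nonneg_left h7 (by positivity)
      have h13 : ((2 * D : ℕ) : ℝ) * 1 ≤ ((2 * D : ℕ) : ℝ) * log 3 :=
        mul_le_mul_of_nonneg_left h11 (by positivity)
      have h14 : ((2 * D : ℕ) : ℝ) = 2 * D := by push_cast; ring
      rw [h14] at h13 ⊢
      linarith
    calc (exp 1 * y / (2 * (D + η) : ℕ)) ^ (2 * (D + η)) ≤ x ^ (2 * (D + η)) :=
          pow_le_pow_left₀ (by positivity) h5 _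
      _ = x ^ (2 * D) * x ^ (2 * η) := by rw [← pow_add]; congr 1; ring
      _ ≤ x ^ (2 * D) * 3 ^ (2 * D) := mul_le_mul_of_nonneg_left h6 (by positivity)
  have hqp : 0 < q ^ (D * (δ - 1) + ν) := pow_pos hq0 _
  have h5 : (3 / 5 : ℝ) ^ (2 * D) ≤ T * (3 * (exp 1 * (exp 1 / t) * x)) ^ (2 * D) := by
    have h6 : (3 / 5 : ℝ) ^ (2 * D) ≤ (q ^ (D * (δ - 1) + ν))⁻¹ * (q ^ ((N - (t - 1)) * (2 * D)) *
        (T * (exp 1 * y / (2 * (D + η) : ℕ)) ^ (2 * (D + η)))) := by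
      rw [le_inv_mul_iff₀ hqp]
      exact (mul_le_mul_of_nonneg_left h2 hqp.le).trans h1
    have h7 : 0 ≤ T * (exp 1 * y / (2 * (D + η) : ℕ)) ^ (2 * (D + η)) := by positivity
    calc (3 / 5 : ℝ) ^ (2 * D)
        ≤ (q ^ (D * (δ - 1) + ν))⁻¹ * (q ^ ((N - (t - 1)) * (2 * D)) *
          (T * (exp 1 * y / (2 * (D + η) : ℕ)) ^ (2 * (D + η)))) := h6
      _ ≤ (exp 1) ^ (2 * D) * ((exp 1 / t) ^ (2 * D) * (T * (x ^ (2 * D) * 3 ^ (2 * D)))) := by
        refine mul_le_mul h4 (mul_le_mul h3 (mul_le_mul_of_nonneg_left hloss hT0) h7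
          (by positivity)) (mul_nonneg (pow_nonneg hq0.le _) h7) (by positivity)
      _ = T * (3 * (exp 1 * (exp 1 / t) * x)) ^ (2 * D) := by
        rw [mul_pow, mul_pow, mul_pow]
        ring
  have h6 : (3 * (exp 1 * (exp 1 / t) * x)) ^ (2 * D) ≤ (1 / 5 : ℝ) ^ (2 * D) :=
    pow_le_pow_left₀ (by positivity) (by linarith) _
  have h7 : (3 / 5 : ℝ) ^ (2 * D) ≤ T * (1 / 5 : ℝ) ^ (2 * D) :=
    h5.trans (mul_le_mul_of_nonneg_left h6 hT0)
  have h8 : (3 / 5 : ℝ) ^ (2 * D) = 3 ^ (2 * D) * (1 / 5 : ℝ) ^ (2 * D) := by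
    rw [← mul_pow]
    norm_num
  rw [h8] at h7
  exact le_of_mul_le_mul_right h7 (by positivity)

/-- The constant. -/
noncomputable def cst : ℝ := 1 / (1056 * exp 11)

theorem cst_pos : 0 < cst := by
  unfold cst
  positivity

/-- **The numerical part**, second version. -/
theorem numerics2 {n m δ ν η T : ℕ} (hn : 1 ≤ n) (hδ : 1 ≤ δ) (hnm : n ≤ 2 * (m * δ))
    (hT : 1 ≤ T) {μ L : ℝ} (hμ : μ = max 1 (m * δ / n : ℝ)) (hL : L = 1 + log μ)
    (hν : ν * L ≤ cst * n) (hη : η * (L * (μ * L ^ 2 + δ * L)) ≤ cst * n)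
    (H : ∀ D N a : ℕ, 1 ≤ D → a < N → D * (2 * (N + a) + 1) ≤ n → D + η < m →
      ∀ q : ℝ, 0 < q → q < 1 → ∀ y : ℝ, m * (1 - q ^ δ) ≤ y / 2 → (2 * (D + η) : ℕ) ≤ y →
      q ^ (D * (δ - 1) + ν) * (1 - (1 - q ^ N) ^ (a + 1)) ^ (2 * D) ≤
        q ^ ((N - a) * (2 * D)) * (T * (exp 1 * y / (2 * (D + η) : ℕ)) ^ (2 * (D + η)))) :
    exp (cst * n / (μ * L ^ 2 + δ * L)) ≤ 2 * T := by
  have hn' : (1 : ℝ) ≤ n := by exact_mod_cast hn
  have hn0 : (0 : ℝ) < n := by linarith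
  have hδ' : (1 : ℝ) ≤ δ := by exact_mod_cast hδ
  have hT' : (1 : ℝ) ≤ T := by exact_mod_cast hT
  have hμ1 : 1 ≤ μ := by rw [hμ]; exact le_max_left _ _
  have hμ0 : 0 < μ := by linarith
  have hL1 : 1 ≤ L := by
    have := log_nonneg hμ1
    linarith
  have hμm : (m : ℝ) * δ ≤ μ * n := by
    have h1 : (m * δ / n : ℝ) ≤ μ := by rw [hμ]; exact le_max_right _ _
    rwa [div_le_iff₀ hn0] at h1
  set W : ℝ := μ * L ^ 2 + δ * L with hW
  have hW0 : 0 < W := by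
    have : 0 < L := by linarith
    positivity
  have h11 := exp_pos 11
  have hc : cst * (1056 * exp 11) = 1 := by
    unfold cst
    field_simp
  have h9 := exp_eleven
  by_cases hnW : 88 * exp 11 * W ≤ n
  · obtain ⟨D, N, a, q, y, hD, ha, hDn, hDm, hq0, hq1, hmy, hyD, hnD, hfin⟩ :=
      params hn hδ hnm (ν := ν) (η := η) hμ1 hμm hL hW (by
        have h1 : 88 * (ν * L) ≤ 88 * (cst * n) := by linarith
        have h2 : cst ≤ 1 / 88 := by
          unfold cst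
          exact one_div_le_one_div_of_le (by norm_num) (by nlinarith)
        have h3 : cst * n ≤ 1 / 88 * n := mul_le_mul_of_nonneg_right h2 hn0.le
        linarith) (by
        calc 1056 * exp 11 * (η * (L * W)) ≤ 1056 * exp 11 * (cst * n) :=
              mul_le_mul_of_nonneg_left hη (by positivity)
          _ = (cst * (1056 * exp 11)) * n := by ring
          _ = n := by rw [hc, one_mul]) hnW
    have h1 := hfin T (by linarith) (H D N a hD ha hDn hDm q hq0 hq1 y hmy hyD)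
    have h2 : cst * n / W ≤ (2 * D : ℕ) := by
      have h3 : cst * n / W = (n / (88 * exp 11 * W)) * (88 / 1056) := by
        unfold cst
        field_simp
      rw [h3]
      push_cast
      have h4 : 0 ≤ (n : ℝ) / (88 * exp 11 * W) := by positivity
      linarith
    calc exp (cst * n / W) ≤ exp ((2 * D : ℕ) : ℝ) := exp_le_exp.2 h2
      _ = exp 1 ^ (2 * D) := by rw [← exp_nat_mul, mul_one]
      _ ≤ 3 ^ (2 * D) := pow_le_pow_left₀ (exp_pos 1).le (by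
        have := exp_one_lt_d9
        linarith) _
      _ ≤ T := h1
      _ ≤ 2 * T := by linarith
  · push Not at hnW
    have h1 : cst * n / W ≤ log 2 := by
      rw [div_le_iff₀ hW0]
      have h2 : cst * n ≤ cst * (88 * exp 11 * W) := mul_le_mul_of_nonneg_left hnW.le cst_pos.le
      have h3 : cst * (88 * exp 11 * W) = (cst * (1056 * exp 11)) * (1 / 12 * W) := by ring
      rw [h3, hc, one_mul] at h2
      have h4 : (1 / 12 : ℝ) ≤ log 2 := by
        have := log_two_gt_d9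
        linarith
      have h5 : 1 / 12 * W ≤ log 2 * W := mul_le_mul_of_nonneg_right h4 hW0.le
      linarith
    calc exp (cst * n / W) ≤ exp (log 2) := exp_le_exp.2 h1
      _ = 2 := exp_log (by norm_num)
      _ ≤ 2 * T := by linarith

/-- **N2**, Pfaffian form: matrices of size `2 m`. -/
theorem N2_pfaffian {n m δ ν η T : ℕ} (hn : 1 ≤ n) (hδ : 1 ≤ δ) (hnm : n ≤ 2 * (m * δ))
    (hT : 1 ≤ T) {μ L : ℝ} (hμ : μ = max 1 (m * δ / n : ℝ)) (hL : L = 1 + log μ)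
    (hν : ν * L ≤ cst * n) (hη : η * (L * (μ * L ^ 2 + δ * L)) ≤ cst * n)
    (H : ∀ D N a : ℕ, 1 ≤ D → a < N → D * (2 * (N + a) + 1) ≤ n → D + η < m →
      ∀ q : ℝ, 0 < q → q < 1 →
      q ^ (D * (δ - 1) + ν) * (1 - (1 - q ^ N) ^ (a + 1)) ^ (2 * D) ≤
        q ^ ((N - a) * (2 * D)) * (T * ∑ j ∈ Finset.range (2 * (D + η) + 1),
            (Nat.choose (2 * m - 2 * (D + η) - 1 + j) j : ℝ) * (1 - q ^ δ) ^ j)) :
    exp (cst * n / (μ * L ^ 2 + δ * L)) ≤ 2 * T := by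
  refine numerics2 hn hδ hnm hT hμ hL hν hη fun D N a hD ha hDn hDm q hq0 hq1 y hmy hyD => ?_
  refine (H D N a hD ha hDn hDm q hq0 hq1).trans ?_
  have h1 : 0 ≤ 1 - q ^ δ := by
    have : q ^ δ ≤ 1 := pow_le_one₀ hq0.le hq1.le
    linarith
  have h2 := sum_choose_le' (m := 2 * m) (k := 2 * (D + η)) (by omega) (by omega) h1 (y := y)
    (by push_cast; linarith) hyD
  exact mul_le_mul_of_nonneg_left (mul_le_mul_of_nonneg_left h2 (by positivity)) (by positivity)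

/-- **N2**, determinant form: matrices of size `m`. -/
theorem N2_det {n m δ ν η T : ℕ} (hn : 1 ≤ n) (hδ : 1 ≤ δ) (hnm : n ≤ 2 * (m * δ))
    (hT : 1 ≤ T) {μ L : ℝ} (hμ : μ = max 1 (m * δ / n : ℝ)) (hL : L = 1 + log μ)
    (hν : ν * L ≤ cst * n) (hη : η * (L * (μ * L ^ 2 + δ * L)) ≤ cst * n)
    (H : ∀ D N a : ℕ, 1 ≤ D → a < N → D * (2 * (N + a) + 1) ≤ n → D + η < m →
      ∀ q : ℝ, 0 < q → q < 1 →
      q ^ (D * (δ - 1) + ν) * (1 - (1 - q ^ N) ^ (a + 1)) ^ (2 * D) ≤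
        q ^ ((N - a) * (2 * D)) * (T * (∑ j ∈ Finset.range (D + η + 1),
            (Nat.choose (m - (D + η) - 1 + j) j : ℝ) * (1 - q ^ δ) ^ j) ^ 2)) :
    exp (cst * n / (μ * L ^ 2 + δ * L)) ≤ 2 * T := by
  refine numerics2 hn hδ hnm hT hμ hL hν hη fun D N a hD ha hDn hDm q hq0 hq1 y hmy hyD => ?_
  refine (H D N a hD ha hDn hDm q hq0 hq1).trans ?_
  have h1 : 0 ≤ 1 - q ^ δ := by
    have : q ^ δ ≤ 1 := pow_le_one₀ hq0.le hq1.le
    linarith
  have hyD' : 2 * ((D + η : ℕ) : ℝ) ≤ y := by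
    have : ((2 * (D + η) : ℕ) : ℝ) = 2 * ((D + η : ℕ) : ℝ) := by push_cast; ring
    rw [← this]
    exact hyD
  have h2 := sum_choose_le' (m := m) (k := D + η) (by omega) hDm.le h1 (y := y / 2) hmy
    (by linarith)
  have h4 : 0 ≤ ∑ j ∈ Finset.range (D + η + 1),
      (Nat.choose (m - (D + η) - 1 + j) j : ℝ) * (1 - q ^ δ) ^ j :=
    Finset.sum_nonneg fun j _ => mul_nonneg (by positivity) (pow_nonneg h1 _)
  have h5 := pow_le_pow_left₀ h4 h2 2
  have h6 : ((exp 1 * (y / 2) / (D + η : ℕ)) ^ (D + η)) ^ 2 =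
      (exp 1 * y / (2 * (D + η) : ℕ)) ^ (2 * (D + η)) := by
    have h7 : exp 1 * (y / 2) / ((D + η : ℕ) : ℝ) = exp 1 * y / ((2 * (D + η) : ℕ) : ℝ) := by
      have h8 : ((2 * (D + η) : ℕ) : ℝ) = 2 * ((D + η : ℕ) : ℝ) := by push_cast; ring
      rw [h8, ← div_div, mul_div_assoc']
    rw [← pow_mul, mul_comm (D + η) 2, h7]
  rw [h6] at h5
  exact mul_le_mul_of_nonneg_left (mul_le_mul_of_nonneg_left h5 (by positivity)) (by positivity)

end Pool.SDN
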