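import Mathlib

/-! # SDET: the choice of the parameters -/

set_option autoImplicit false

namespace Pool.SDN

open Real

/-- The powers of `q = 1 - 1 / t`. -/
theorem q_props {t : ℕ} (ht : 3 ≤ t) {q : ℝ} (hq : q = 1 - 1 / (t : ℝ)) :
    0 < q ∧ q < 1 ∧ exp (-1) ≤ q ^ (t - 1) ∧ q ≤ exp (-(1 / (t : ℝ))) ∧ 2 / 3 ≤ q := by
  have ht' : (3 : ℝ) ≤ t := by exact_mod_cast ht
  have h0 : (0 : ℝ) < t := by linarith
  have h1 : 1 / (t : ℝ) ≤ 1 / 3 := one_div_le_one_div_of_le (by norm_num) ht'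
  have h2 : 0 < 1 / (t : ℝ) := by positivity
  have hq0 : 0 < q := by rw [hq]; linarith
  refine ⟨hq0, by rw [hq]; linarith, ?_, ?_, by rw [hq]; linarith⟩
  · have h3 := one_sub_inv_le_log_of_pos hq0
    have h4 : 1 - q⁻¹ = -(1 / ((t : ℝ) - 1)) := by
      rw [hq]
      have : (t : ℝ) - 1 ≠ 0 := by linarith
      field_simp
      ring
    rw [h4] at h3
    have h5 : ((t - 1 : ℕ) : ℝ) = (t : ℝ) - 1 := by
      rw [Nat.cast_sub (by omega)]
      simp
    have h6 : q ^ (t - 1) = exp (((t - 1 : ℕ) : ℝ) * log q) := by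
      rw [mul_comm, exp_mul, exp_log hq0, rpow_natCast]
    rw [h6, exp_le_exp, h5]
    have h7 : (0 : ℝ) < (t : ℝ) - 1 := by linarith
    calc (-1 : ℝ) = ((t : ℝ) - 1) * (-(1 / ((t : ℝ) - 1))) := by field_simp
      _ ≤ ((t : ℝ) - 1) * log q := mul_le_mul_of_nonneg_left h3 h7.le
  · have := add_one_le_exp (-(1 / (t : ℝ)))
    rw [hq]
    linarith

/-- The choice of `N`. -/
theorem exists_N {t : ℕ} (ht : 3 ≤ t) {q : ℝ} (hq : q = 1 - 1 / (t : ℝ)) :
    ∃ N : ℕ, t ≤ N ∧ (N : ℝ) ≤ 1 + t * log t ∧ q ^ (N - (t - 1)) ≤ exp 1 / t ∧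
      2 / 5 ≤ 1 - (1 - q ^ N) ^ t := by
  classical
  obtain ⟨hq0, hq1, h1, h2, h3⟩ := q_props ht hq
  have ht' : (3 : ℝ) ≤ t := by exact_mod_cast ht
  have h0 : (0 : ℝ) < t := by linarith
  have hex : ∃ N : ℕ, q ^ N ≤ 1 / (t : ℝ) := by
    obtain ⟨N, hN⟩ := exists_pow_lt_of_lt_one (show (0 : ℝ) < 1 / t by positivity) hq1
    exact ⟨N, hN.le⟩
  set N := Nat.find hex with hNdef
  have hN : q ^ N ≤ 1 / (t : ℝ) := Nat.find_spec hex
  have he : exp 1 < 3 := lt_trans exp_one_lt_d9 (by norm_num)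
  have hNt : t ≤ N := by
    by_contra hcon
    have h4 : q ^ (t - 1) ≤ q ^ N := pow_le_pow_of_le_one hq0.le hq1.le (by omega)
    have h5 : exp (-1) ≤ 1 / (t : ℝ) := (h1.trans h4).trans hN
    have h6 : 1 / (t : ℝ) ≤ 1 / 3 := one_div_le_one_div_of_le (by norm_num) ht'
    have h7 : (1 : ℝ) / 3 < exp (-1) := by
      rw [exp_neg, inv_eq_one_div]
      exact one_div_lt_one_div_of_lt (exp_pos _) he
    linarith
  have hprev : 1 / (t : ℝ) < q ^ (N - 1) := by
    have := Nat.find_min hex (m := N - 1) (by omega)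
    exact not_le.1 this
  have hsplit : q ^ N = q * q ^ (N - 1) := by
    rw [← pow_succ']
    congr 1
    omega
  refine ⟨N, hNt, ?_, ?_, ?_⟩
  · have h4 : q ^ (N - 1) ≤ exp (-((N - 1 : ℕ) : ℝ) / t) := by
      calc q ^ (N - 1) ≤ (exp (-(1 / (t : ℝ)))) ^ (N - 1) := pow_le_pow_left₀ hq0.le h2 _
        _ = exp (-((N - 1 : ℕ) : ℝ) / t) := by
          rw [← exp_nat_mul]
          congr 1
          ring
    have h5 : exp (-log t) < exp (-((N - 1 : ℕ) : ℝ) / t) := by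
      rw [exp_neg, exp_log h0, inv_eq_one_div]
      exact lt_of_lt_of_le hprev h4
    rw [exp_lt_exp, Nat.cast_sub (by omega)] at h5
    have h6 : ((N : ℝ) - 1) / t < log t := by
      have : -((N : ℝ) - (1 : ℕ)) / t = -(((N : ℝ) - 1) / t) := by push_cast; ring
      rw [this] at h5
      linarith
    rw [div_lt_iff₀ h0] at h6
    linarith [mul_comm (log (t : ℝ)) (t : ℝ)]
  · have h4 : q ^ (N - (t - 1)) * q ^ (t - 1) = q ^ N := by
      rw [← pow_add]
      congr 1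
      omega
    have h5 : 0 < q ^ (N - (t - 1)) := pow_pos hq0 _
    have h6 : q ^ (N - (t - 1)) * exp (-1) ≤ 1 / t :=
      (mul_le_mul_of_nonneg_left h1 h5.le).trans (h4.le.trans hN)
    rw [exp_neg, ← div_eq_mul_inv, div_le_iff₀ (exp_pos 1)] at h6
    calc q ^ (N - (t - 1)) ≤ 1 / t * exp 1 := h6
      _ = exp 1 / t := by ring
  · have h4 : 2 / 3 / (t : ℝ) ≤ q ^ N := by
      rw [hsplit]
      calc 2 / 3 / (t : ℝ) = 2 / 3 * (1 / t) := by ring
        _ ≤ q * q ^ (N - 1) := mul_le_mul h3 hprev.le (by positivity) hq0.le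
    have h5 : 1 - q ^ N ≤ exp (-(2 / 3 / (t : ℝ))) := by
      have := add_one_le_exp (-(2 / 3 / (t : ℝ)))
      linarith
    have h6 : 0 ≤ 1 - q ^ N := by
      have : q ^ N ≤ 1 := pow_le_one₀ hq0.le hq1.le
      linarith
    have h7 : (1 - q ^ N) ^ t ≤ exp (-(2 / 3)) := by
      calc (1 - q ^ N) ^ t ≤ (exp (-(2 / 3 / (t : ℝ)))) ^ t := pow_le_pow_left₀ h6 h5 _
        _ = exp (-(2 / 3)) := by
          rw [← exp_nat_mul]
          congr 1
          field_simp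
    have h8 : exp (-(2 / 3 : ℝ)) ≤ 3 / 5 := by
      have h9 := add_one_le_exp (2 / 3 : ℝ)
      rw [exp_neg, inv_le_comm₀ (exp_pos _) (by norm_num)]
      linarith
    linarith

theorem exp_nine : (7000 : ℝ) ≤ exp 9 := by
  have h1 : (2.7 : ℝ) ≤ exp 1 := by
    have := exp_one_gt_d9
    linarith
  have h2 : exp 9 = exp 1 ^ 9 := by
    rw [← exp_nat_mul]
    norm_num
  rw [h2]
  calc (7000 : ℝ) ≤ 2.7 ^ 9 := by norm_num
    _ ≤ exp 1 ^ 9 := pow_le_pow_left₀ (by norm_num) h1 9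

theorem exp_two : exp 1 * exp 1 ≤ 7.4 := by
  have h1 : exp 1 ≤ 2.7182818286 := exp_one_lt_d9.le
  have h2 : 0 < exp 1 := exp_pos 1
  nlinarith

/-- **The numerical part.** -/
theorem numerics {n m r : ℕ} (hn : 1 ≤ n) (hnm : n ≤ m) (hr : 1 ≤ r)
    (H : ∀ D N a : ℕ, 1 ≤ D → a < N → D * (2 * (N + a) + 1) ≤ n → ∀ q : ℝ, 0 < q → q < 1 →
      (D : ℝ) ≤ m * (1 - q) → (1 - (1 - q ^ N) ^ (a + 1)) ^ (2 * D) ≤
        r * q ^ ((N - a) * (2 * D)) * ((exp 1 * (m * (1 - q)) / D) ^ D) ^ 2) :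
    exp (log 2 / (30 * exp 9) * n ^ 2 / (m * (1 + log (m / n)) ^ 2)) ≤ 2 * r := by
  have hn' : (1 : ℝ) ≤ n := by exact_mod_cast hn
  have hn0 : (0 : ℝ) < n := by linarith
  have hnm' : (n : ℝ) ≤ m := by exact_mod_cast hnm
  have hm0 : (0 : ℝ) < m := by linarith
  have hr' : (1 : ℝ) ≤ r := by exact_mod_cast hr
  set μ : ℝ := m / n with hμ
  have hμ1 : 1 ≤ μ := by rw [hμ, le_div_iff₀ hn0]; linarith
  have hμ0 : 0 < μ := by linarith
  set Λ : ℝ := 1 + log μ with hΛ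
  have hΛ1 : 1 ≤ Λ := by
    have := log_nonneg hμ1
    linarith
  have hΛ0 : 0 < Λ := by linarith
  have hm : (m : ℝ) = μ * n := by rw [hμ]; field_simp
  have h9 := exp_nine
  have h90 := exp_pos 9
  have hμΛ : 1 ≤ μ * Λ := by nlinarith
  set T : ℝ := exp 9 / 2 * (μ * Λ) with hT
  have hT1 : 3500 ≤ T := by
    rw [hT]
    nlinarith
  set t : ℕ := ⌈T⌉₊ with ht
  have htT : T ≤ t := Nat.le_ceil T
  have htT' : (t : ℝ) ≤ exp 9 * (μ * Λ) := by
    have h1 : (t : ℝ) < T + 1 := Nat.ceil_lt_add_one (by linarith)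
    have h2 : exp 9 * (μ * Λ) = 2 * T := by rw [hT]; ring
    rw [h2]
    linarith
  have ht3' : (3 : ℝ) ≤ t := by linarith
  have ht3 : 3 ≤ t := by exact_mod_cast ht3'
  have ht0 : (0 : ℝ) < t := by linarith
  have hlog : 1 + log t ≤ 10 * Λ := by
    have h1 : log t ≤ log (exp 9 * (μ * Λ)) := log_le_log ht0 htT'
    rw [log_mul (exp_pos 9).ne' (mul_pos hμ0 hΛ0).ne', log_exp, log_mul hμ0.ne' hΛ0.ne'] at h1
    have h2 : log Λ ≤ Λ - 1 := log_le_sub_one_of_pos hΛ0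
    have h3 : log μ = Λ - 1 := by rw [hΛ]; ring
    linarith
  have hlog0 : 0 ≤ log t := log_nonneg (by linarith)
  obtain ⟨N, hNt, hN1, hN2, hN3⟩ := exists_N ht3 (q := 1 - 1 / (t : ℝ)) rfl
  obtain ⟨hq0, hq1, -, -, -⟩ := q_props ht3 (q := 1 - 1 / (t : ℝ)) rfl
  set q : ℝ := 1 - 1 / (t : ℝ) with hq
  set s : ℕ := 2 * (N + (t - 1)) + 1 with hs
  have hs1 : (s : ℝ) ≤ 3 * (t * (1 + log t)) := by
    have h1 : (s : ℝ) = 2 * (N + (t - 1)) + 1 := by
      rw [hs]
      push_cast [Nat.cast_sub (show 1 ≤ t by omega)]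
      ring
    have h2 : (1 : ℝ) ≤ t * (1 + log t) := by nlinarith
    rw [h1]
    nlinarith
  have hs2 : (s : ℝ) ≤ 30 * exp 9 * (μ * Λ ^ 2) := by
    calc (s : ℝ) ≤ 3 * (t * (1 + log t)) := hs1
      _ ≤ 3 * ((exp 9 * (μ * Λ)) * (10 * Λ)) := by
        have := mul_le_mul htT' hlog (by linarith) (by positivity)
        linarith
      _ = 30 * exp 9 * (μ * Λ ^ 2) := by ring
  have hs0 : (0 : ℝ) < s := by
    have : 0 < s := by omega
    exact_mod_cast this
  have hE : log 2 / (30 * exp 9) * n ^ 2 / (m * Λ ^ 2) =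
      log 2 * (n / (30 * exp 9 * (μ * Λ ^ 2))) := by
    rw [hm]
    field_simp
  have hln2 : 0 < log 2 := log_pos (by norm_num)
  have hns : (n : ℝ) / (30 * exp 9 * (μ * Λ ^ 2)) ≤ n / s :=
    div_le_div_of_nonneg_left hn0.le hs0 hs2
  rw [hE]
  set D : ℕ := n / s with hD
  rcases Nat.eq_zero_or_pos D with hD0 | hD0
  · have h1 : n < s := by
      have h2 := Nat.lt_div_mul_add (a := n) (b := s) (by omega)
      rw [← hD, hD0] at h2
      omega
    have h2 : (n : ℝ) / s ≤ 1 := by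
      rw [div_le_one hs0]
      exact_mod_cast h1.le
    calc exp (log 2 * (n / (30 * exp 9 * (μ * Λ ^ 2)))) ≤ exp (log 2 * 1) := by
          rw [exp_le_exp]
          exact mul_le_mul_of_nonneg_left (hns.trans h2) hln2.le
      _ = 2 := by rw [mul_one, exp_log (by norm_num)]
      _ ≤ 2 * r := by linarith
  · have hDn : D * s ≤ n := Nat.div_mul_le_self n s
    have hDn' : n < (D + 1) * s := by
      have h2 := Nat.lt_div_mul_add (a := n) (b := s) (by omega)
      rw [← hD] at h2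
      linarith [add_mul D 1 s]
    have hD1 : (1 : ℝ) ≤ D := by exact_mod_cast hD0
    have hDr : (n : ℝ) ≤ 2 * D * s := by
      have h1 : (n : ℝ) < (D + 1) * s := by exact_mod_cast hDn'
      nlinarith
    have h1q : 1 - q = 1 / t := by rw [hq]; ring
    have hDm : (D : ℝ) ≤ m * (1 - q) := by
      rw [h1q, mul_one_div, le_div_iff₀ ht0]
      have h1 : (D : ℝ) * s ≤ n := by exact_mod_cast hDn
      have h2 : (t : ℝ) ≤ s := by
        have : t ≤ s := by omega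
        exact_mod_cast this
      nlinarith
    have h1 := H D N (t - 1) hD0 (by omega) hDn q hq0 hq1 hDm
    have hta : t - 1 + 1 = t := by omega
    rw [hta, h1q] at h1
    have h2 : (2 / 5 : ℝ) ^ (2 * D) ≤ (1 - (1 - q ^ N) ^ t) ^ (2 * D) :=
      pow_le_pow_left₀ (by norm_num) hN3 _
    have h3 : q ^ ((N - (t - 1)) * (2 * D)) ≤ (exp 1 / t) ^ (2 * D) := by
      rw [pow_mul]
      exact pow_le_pow_left₀ (pow_pos hq0 _).le hN2 _
    set x : ℝ := exp 1 * (m * (1 / t)) / D with hx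
    have hx0 : 0 < x := by positivity
    have h4 : (x ^ D) ^ 2 = x ^ (2 * D) := by rw [← pow_mul, mul_comm]
    have h5 : (2 / 5 : ℝ) ^ (2 * D) ≤ r * ((exp 1 / t) * x) ^ (2 * D) := by
      rw [mul_pow]
      calc (2 / 5 : ℝ) ^ (2 * D) ≤ r * q ^ ((N - (t - 1)) * (2 * D)) * (x ^ D) ^ 2 := h2.trans h1
        _ ≤ r * (exp 1 / t) ^ (2 * D) * (x ^ D) ^ 2 := by gcongr
        _ = r * ((exp 1 / t) ^ (2 * D) * x ^ (2 * D)) := by rw [h4]; ring
    have h6 : (exp 1 / t) * x ≤ 1 / 5 := by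
      have h7 : (exp 1 / t) * x = exp 1 * exp 1 * m / (t * t * D) := by
        rw [hx]
        field_simp
      rw [h7, div_le_iff₀ (by positivity), hm]
      have h8 : μ * n ≤ μ * (2 * D * (3 * (t * (10 * Λ)))) := by
        refine mul_le_mul_of_nonneg_left (hDr.trans ?_) hμ0.le
        refine mul_le_mul_of_nonneg_left (hs1.trans ?_) (by positivity)
        nlinarith
      have h10 : 60 * (μ * Λ) * (5 * 7.4) ≤ t := by
        have : 60 * (μ * Λ) * (5 * 7.4) ≤ T := by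
          rw [hT]
          nlinarith
        linarith
      have h11 := exp_two
      have h12 : 0 < exp 1 * exp 1 := by positivity
      calc exp 1 * exp 1 * (μ * n) ≤ 7.4 * (μ * (2 * D * (3 * (t * (10 * Λ))))) :=
            mul_le_mul h11 h8 (by positivity) (by norm_num)
        _ = 1 / 5 * ((60 * (μ * Λ) * (5 * 7.4)) * t * D) := by ring
        _ ≤ 1 / 5 * (t * t * D) := by
          have h13 : (0 : ℝ) ≤ t * D := by positivity
          nlinarith
    have h7 : (2 : ℝ) ^ (2 * D) ≤ r := by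
      have h8 : (exp 1 / t * x) ^ (2 * D) ≤ (1 / 5 : ℝ) ^ (2 * D) :=
        pow_le_pow_left₀ (by positivity) h6 _
      have h9' : (2 / 5 : ℝ) ^ (2 * D) ≤ r * (1 / 5 : ℝ) ^ (2 * D) :=
        h5.trans (mul_le_mul_of_nonneg_left h8 (by linarith))
      have h10 : (2 / 5 : ℝ) ^ (2 * D) = 2 ^ (2 * D) * (1 / 5 : ℝ) ^ (2 * D) := by
        rw [← mul_pow]
        norm_num
      rw [h10] at h9'
      exact le_of_mul_le_mul_right h9' (by positivity)
    have h8 : (n : ℝ) / s ≤ 2 * D := by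
      rw [div_le_iff₀ hs0]
      exact hDr
    calc exp (log 2 * (n / (30 * exp 9 * (μ * Λ ^ 2)))) ≤ exp (log 2 * (2 * D)) := by
          rw [exp_le_exp]
          exact mul_le_mul_of_nonneg_left (hns.trans h8) hln2.le
      _ = 2 ^ (2 * D) := by
        rw [exp_mul, exp_log (by norm_num), ← rpow_natCast]
        push_cast
        rfl
      _ ≤ r := h7
      _ ≤ 2 * r := by linarith

end Pool.SDN

namespace Pool.SDN

open Real

/-- The sum over the index sets. -/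
theorem sum_choose_le {m D : ℕ} (hD : 1 ≤ D) (hDm : D < m) {x : ℝ} (hx : 0 ≤ x)
    (hy : (D : ℝ) ≤ m * x) :
    ∑ j ∈ Finset.range (D + 1), (Nat.choose (m - D - 1 + j) j : ℝ) * x ^ j ≤
      (exp 1 * (m * x) / D) ^ D := by
  have hD0 : (0 : ℝ) < D := by exact_mod_cast hD
  have h1 : 1 ≤ m * x / D := by rwa [le_div_iff₀ hD0, one_mul]
  have h2 : ∀ j ∈ Finset.range (D + 1), (Nat.choose (m - D - 1 + j) j : ℝ) * x ^ j ≤
      (m * x / D) ^ D * ((D : ℝ) ^ j / j.factorial) := by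
    intro j hj
    rw [Finset.mem_range] at hj
    have h3 : (Nat.choose (m - D - 1 + j) j : ℝ) ≤ (m : ℝ) ^ j / j.factorial := by
      refine (Nat.choose_le_pow_div j (m - D - 1 + j)).trans ?_
      have h4 : ((m - D - 1 + j : ℕ) : ℝ) ≤ m := by
        have : m - D - 1 + j ≤ m := by omega
        exact_mod_cast this
      gcongr
    calc (Nat.choose (m - D - 1 + j) j : ℝ) * x ^ j ≤ (m : ℝ) ^ j / j.factorial * x ^ j := by
          gcongr
      _ = (m * x / D) ^ j * ((D : ℝ) ^ j / j.factorial) := by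
          rw [div_pow, mul_pow]
          field_simp
      _ ≤ (m * x / D) ^ D * ((D : ℝ) ^ j / j.factorial) := by
          have h5 : (m * x / D) ^ j ≤ (m * x / D) ^ D := pow_le_pow_right₀ h1 (by omega)
          gcongr
  calc ∑ j ∈ Finset.range (D + 1), (Nat.choose (m - D - 1 + j) j : ℝ) * x ^ j
      ≤ ∑ j ∈ Finset.range (D + 1), (m * x / D) ^ D * ((D : ℝ) ^ j / j.factorial) :=
        Finset.sum_le_sum h2
    _ = (m * x / D) ^ D * ∑ j ∈ Finset.range (D + 1), (D : ℝ) ^ j / j.factorial := by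
        rw [Finset.mul_sum]
    _ ≤ (m * x / D) ^ D * exp D := by
        have h6 := sum_le_exp_of_nonneg hD0.le (D + 1)
        gcongr
    _ = (exp 1 * (m * x) / D) ^ D := by
        have h7 : exp (D : ℝ) = exp 1 ^ D := by
          rw [← exp_nat_mul, mul_one]
        rw [h7, ← mul_pow]
        congr 1
        ring

end Pool.SDN

namespace Pool.SDL

open Real Pool.SDN

theorem N_numerics : ∃ c : ℝ, 0 < c ∧ ∀ n m t : ℕ, 1 ≤ n → n ≤ m → 1 ≤ t →
    (∀ D N a : ℕ, 1 ≤ D → a < N → D * (2 * (N + a) + 1) ≤ n →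
      ∀ q : ℝ, 0 < q → q < 1 →
      (1 - (1 - q ^ N) ^ (a + 1)) ^ (2 * D) ≤
      t * q ^ ((N - a) * (2 * D)) *
        (∑ j ∈ Finset.range (D + 1), (Nat.choose (m - D - 1 + j) j : ℝ) * (1 - q) ^ j) ^ 2) →
    Real.exp (c * n ^ 2 / (m * (1 + Real.log (m / n)) ^ 2)) ≤ 2 * t := by
  refine ⟨log 2 / (30 * exp 9), div_pos (log_pos (by norm_num)) (by positivity), ?_⟩
  intro n m t hn hnm ht H
  refine numerics hn hnm ht fun D N a hD haN hDn q hq0 hq1 hDm => ?_
  have hDm' : D < m := by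
    have h1 : D * 2 ≤ D * (2 * (N + a) + 1) := Nat.mul_le_mul_left D (by omega)
    omega
  have h1 := H D N a hD haN hDn q hq0 hq1
  have h2 := sum_choose_le hD hDm' (x := 1 - q) (by linarith) hDm
  have h3 : 0 ≤ ∑ j ∈ Finset.range (D + 1), (Nat.choose (m - D - 1 + j) j : ℝ) * (1 - q) ^ j :=
    Finset.sum_nonneg fun j _ => mul_nonneg (by positivity) (pow_nonneg (by linarith) _)
  refine h1.trans ?_
  have h4 := pow_le_pow_left₀ h3 h2 2
  have h5 : 0 ≤ (t : ℝ) * q ^ ((N - a) * (2 * D)) := by positivity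
  exact mul_le_mul_of_nonneg_left h4 h5

end Pool.SDL
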